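import Pool.Agent.H586.AF.D

/-!
# Task AG-P12 (helper600): one plaquette of the plane 12 with a background field, general `G`
-/

set_option autoImplicit false

open Matrix Finset
open scoped Matrix.Norms.Frobenius

namespace Pool.Agent.H600.AG

open Pool.Agent.H586.AF.GG

noncomputable section

variable {N : ℕ}

/-- the real part of the trace -/
def T (M : Mt N) : ℝ := (trace M).re

lemma T_add (A B : Mt N) : T (A + B) = T A + T B := by simp [T]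
lemma T_neg (A : Mt N) : T (-A) = -T A := by simp [T]
lemma T_sub (A B : Mt N) : T (A - B) = T A - T B := by simp [T]
lemma T_smul (c : ℝ) (A : Mt N) : T (c • A) = c * T A := by simp [T]
lemma T_comm (A B : Mt N) : T (A * B) = T (B * A) := by unfold T; rw [trace_mul_comm]
lemma T_star (A : Mt N) : T Aᴴ = T A := by
  unfold T
  rw [trace_conjTranspose]
  simp

lemma entry_le (M : Mt N) (i j : Fin N) : ‖M i j‖ ≤ ‖M‖ := by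
  rw [frobenius_norm_def]
  have h1 : ‖M i j‖ ^ (2:ℝ) ≤ ∑ i, ∑ j, ‖M i j‖ ^ (2:ℝ) :=
    (Finset.single_le_sum (f := fun j => ‖M i j‖ ^ (2:ℝ)) (fun _ _ => by positivity)
      (Finset.mem_univ j)).trans
     (Finset.single_le_sum (f := fun i => ∑ j, ‖M i j‖ ^ (2:ℝ)) (fun _ _ => by positivity)
      (Finset.mem_univ i))
  calc ‖M i j‖ = (‖M i j‖ ^ (2:ℝ)) ^ (1/2:ℝ) := by
        rw [← Real.rpow_mul (norm_nonneg _)]
        norm_num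
   _ ≤ _ := Real.rpow_le_rpow (by positivity) h1 (by norm_num)

lemma T_le (M : Mt N) : |T M| ≤ N * ‖M‖ := by
  unfold T
  refine (Complex.abs_re_le_norm _).trans ?_
  unfold trace
  refine (norm_sum_le_of_le _ (fun i _ => entry_le M i i)).trans ?_
  simp

/-- unitary matrices are bounded -/
lemma uni_le (U : UU N) : ‖(U : Mt N)‖ ≤ N := by
  rw [frobenius_norm_def]
  have h1 : ∑ i, ∑ j, ‖(U : Mt N) i j‖ ^ (2:ℝ) ≤ (N : ℝ) ^ (2 : ℝ) := by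
    calc ∑ i, ∑ j, ‖(U : Mt N) i j‖ ^ (2:ℝ) ≤ ∑ i : Fin N, ∑ j : Fin N, (1 : ℝ) := by
          refine Finset.sum_le_sum fun i _ => Finset.sum_le_sum fun j _ => ?_
          exact Real.rpow_le_one (norm_nonneg _) (entry_norm_bound_of_unitary U.2 i j) (by norm_num)
      _ = (N : ℝ) ^ (2 : ℝ) := by
          simp
          ring
  calc (∑ i, ∑ j, ‖(U : Mt N) i j‖ ^ (2:ℝ)) ^ (1 / 2 : ℝ) ≤ ((N : ℝ) ^ (2 : ℝ)) ^ (1 / 2 : ℝ) :=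
        Real.rpow_le_rpow (by positivity) h1 (by norm_num)
    _ = N := by
        rw [← Real.rpow_mul (Nat.cast_nonneg N)]
        norm_num

lemma T_der {f : ℝ → Mt N} {f' : Mt N} {θ : ℝ} (h : HasDerivAt f f' θ) :
    HasDerivAt (fun θ => T (f θ)) (T f') θ :=
  (LinearMap.mkContinuous { toFun := T, map_add' := T_add, map_smul' := T_smul } (N : ℝ)
    (fun M => T_le M)).hasFDerivAt.comp_hasDerivAt θ h

/-- the background factor -/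
def ee (X : Mt N) (t θ : ℝ) : Mt N := NormedSpace.exp ((θ * t) • X)

lemma ee_der (X : Mt N) (t θ : ℝ) : HasDerivAt (ee X t) (t • (X * ee X t θ)) θ := by
  have h1 := hasDerivAt_exp_smul_const' X (θ * t)
  have h2 : HasDerivAt (fun θ : ℝ => θ * t) t θ := by
    simpa using (hasDerivAt_id θ).mul_const t
  exact h1.scomp θ h2

lemma ee_zero (X : Mt N) (t : ℝ) : ee X t 0 = 1 := by
  unfold ee
  rw [zero_mul, zero_smul, NormedSpace.exp_zero]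

/-- one factor -/
def gg (X A : Mt N) (t : ℝ) (n : ℕ) (θ : ℝ) : Mt N := A * X ^ n * ee X t θ

lemma gg_der (X A : Mt N) (t : ℝ) (n : ℕ) (θ : ℝ) :
    HasDerivAt (gg X A t n) (t • gg X A t (n + 1) θ) θ := by
  have h := (ee_der X t θ).const_mul (A * X ^ n)
  have e : A * X ^ n * (t • (X * ee X t θ)) = t • gg X A t (n + 1) θ := by
    unfold gg
    rw [mul_smul_comm, pow_succ]
    simp only [mul_assoc]
  rw [e] at h
  exact h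

/-- the product of four factors -/
def QQ (X A B C D : Mt N) (t1 t2 t3 t4 : ℝ) (n1 n2 n3 n4 : ℕ) (θ : ℝ) : ℝ :=
  T (gg X A t1 n1 θ * gg X B t2 n2 θ * gg X C t3 n3 θ * gg X D t4 n4 θ)

lemma QQ_der (X A B C D : Mt N) (t1 t2 t3 t4 : ℝ) (n1 n2 n3 n4 : ℕ) (θ : ℝ) :
    HasDerivAt (QQ X A B C D t1 t2 t3 t4 n1 n2 n3 n4)
      (t1 * QQ X A B C D t1 t2 t3 t4 (n1 + 1) n2 n3 n4 θ +
       t2 * QQ X A B C D t1 t2 t3 t4 n1 (n2 + 1) n3 n4 θ +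
       t3 * QQ X A B C D t1 t2 t3 t4 n1 n2 (n3 + 1) n4 θ +
       t4 * QQ X A B C D t1 t2 t3 t4 n1 n2 n3 (n4 + 1) θ) θ := by
  have h := (((gg_der X A t1 n1 θ).mul (gg_der X B t2 n2 θ)).mul (gg_der X C t3 n3 θ)).mul
    (gg_der X D t4 n4 θ)
  refine HasDerivAt.congr_deriv (T_der h) ?_
  unfold QQ
  simp only [smul_mul_assoc, mul_smul_comm, add_mul, T_add, T_smul, Pi.mul_apply]

lemma mb {A B : Mt N} {s t : ℝ} (hA : ‖A‖ ≤ s) (hB : ‖B‖ ≤ t) : ‖A * B‖ ≤ s * t :=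
  (norm_mul_le A B).trans (mul_le_mul hA hB (norm_nonneg _) ((norm_nonneg _).trans hA))

lemma T_b {A : Mt N} {s : ℝ} (hA : ‖A‖ ≤ s) : |T A| ≤ N * s :=
  (T_le A).trans (mul_le_mul_of_nonneg_left hA (Nat.cast_nonneg N))

/-! ### the background factor -/

lemma ee_star {X : Mt N} (hX : Xᴴ = -X) (t θ : ℝ) : (ee X t θ)ᴴ = ee X (-t) θ := by
  unfold ee
  rw [← Matrix.exp_conjTranspose]
  congr 1
  rw [conjTranspose_smul, hX]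
  simp

lemma ee_mul (X : Mt N) (s t θ : ℝ) : ee X s θ * ee X t θ = ee X (s + t) θ := by
  unfold ee
  rw [← Matrix.exp_add_of_commute]
  · congr 1
    rw [← add_smul]
    congr 1
    ring
  · exact (Commute.refl X).smul_left _ |>.smul_right _

lemma ee_le {X : Mt N} (hX : Xᴴ = -X) (t θ : ℝ) : ‖ee X t θ‖ ≤ N := by
  have h : ee X t θ ∈ unitaryGroup (Fin N) ℂ := by
    rw [mem_unitaryGroup_iff, star_eq_conjTranspose, ee_star hX, ee_mul, add_neg_cancel]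
    unfold ee
    rw [mul_zero, zero_smul, NormedSpace.exp_zero]
  exact uni_le ⟨_, h⟩

lemma QQ_le {X A B C D : Mt N} (hX : Xᴴ = -X) {ξ : ℝ} (hξ : ∀ n ≤ 2, ‖X ^ n‖ ≤ ξ)
    (hA : ‖A‖ ≤ N) (hB : ‖B‖ ≤ N) (hC : ‖C‖ ≤ N) (hD : ‖D‖ ≤ N) (t1 t2 t3 t4 : ℝ)
    {n1 n2 n3 n4 : ℕ} (h1 : n1 ≤ 2) (h2 : n2 ≤ 2) (h3 : n3 ≤ 2) (h4 : n4 ≤ 2) (θ : ℝ) :
    |QQ X A B C D t1 t2 t3 t4 n1 n2 n3 n4 θ| ≤
      N * ((N * ξ * N) * (N * ξ * N) * (N * ξ * N) * (N * ξ * N)) := by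
  unfold QQ gg
  exact T_b (mb (mb (mb (mb (mb hA (hξ _ h1)) (ee_le hX _ _)) (mb (mb hB (hξ _ h2)) (ee_le hX _ _)))
    (mb (mb hC (hξ _ h3)) (ee_le hX _ _))) (mb (mb hD (hξ _ h4)) (ee_le hX _ _)))

/-! ### the expansion -/

/-- the basic form -/
def Z (X u v : Mt N) (m n : ℕ) : ℝ := T (u * X ^ m * v * X ^ n)

lemma Z_add_left (X u u' v : Mt N) (m n : ℕ) : Z X (u + u') v m n = Z X u v m n + Z X u' v m n := by
  unfold Z; simp only [add_mul, T_add]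
lemma Z_add_right (X u v v' : Mt N) (m n : ℕ) : Z X u (v + v') m n = Z X u v m n + Z X u v' m n := by
  unfold Z; simp only [mul_add, add_mul, T_add]
lemma Z_sub_left (X u u' v : Mt N) (m n : ℕ) : Z X (u - u') v m n = Z X u v m n - Z X u' v m n := by
  unfold Z; simp only [sub_mul, T_sub]
lemma Z_sub_right (X u v v' : Mt N) (m n : ℕ) : Z X u (v - v') m n = Z X u v m n - Z X u v' m n := by
  unfold Z; simp only [mul_sub, sub_mul, T_sub]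
lemma Z_neg_left (X u v : Mt N) (m n : ℕ) : Z X (-u) v m n = -Z X u v m n := by
  unfold Z; simp only [neg_mul, T_neg]
lemma Z_neg_right (X u v : Mt N) (m n : ℕ) : Z X u (-v) m n = -Z X u v m n := by
  unfold Z; simp only [neg_mul, mul_neg, T_neg]
lemma Z_cyc (X u v : Mt N) (m n : ℕ) : Z X u v m n = Z X v u n m := by
  unfold Z
  rw [show u * X ^ m * v * X ^ n = (u * X ^ m) * (v * X ^ n) by simp only [mul_assoc], T_comm]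
  simp only [mul_assoc]

lemma Z_le {X : Mt N} {ξ : ℝ} (hξ : ∀ n ≤ 2, ‖X ^ n‖ ≤ ξ) {u v : Mt N} {s t : ℝ} (hu : ‖u‖ ≤ s)
    (hv : ‖v‖ ≤ t) {m n : ℕ} (hm : m ≤ 2) (hn : n ≤ 2) : |Z X u v m n| ≤ N * (s * ξ * t * ξ) :=
  T_b (mb (mb (mb hu (hξ _ hm)) hv) (hξ _ hn))

lemma Z_star10 {X : Mt N} (hX : Xᴴ = -X) (u v : Mt N) : Z X u v 1 0 = -Z X uᴴ vᴴ 0 1 := by
  unfold Z
  rw [← T_star (u * X ^ 1 * v * X ^ 0)]
  simp only [pow_zero, pow_one, mul_one, conjTranspose_mul, hX]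
  rw [neg_mul, mul_neg, T_neg, ← mul_assoc vᴴ, T_comm (vᴴ * X)]
  simp only [mul_assoc]

lemma Z_star20 {X : Mt N} (hX : Xᴴ = -X) (u v : Mt N) : Z X u v 2 0 = Z X uᴴ vᴴ 0 2 := by
  unfold Z
  rw [← T_star (u * X ^ 2 * v * X ^ 0)]
  simp only [pow_zero, mul_one, conjTranspose_mul, conjTranspose_pow, hX, neg_sq]
  rw [← mul_assoc vᴴ, T_comm (vᴴ * X ^ 2)]
  simp only [mul_assoc]

lemma G0 {z1 z2 z3 z4 Y1 Y2 Y3 Y4 : Mt N} {ξ f F0 : ℝ} (hf : 0 ≤ f) (hF : f ≤ F0)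
    (h1 : ‖z1‖ ≤ f) (h2 : ‖z2‖ ≤ f) (h3 : ‖z3‖ ≤ f) (h4 : ‖z4‖ ≤ f)
    (y1 : ‖Y1‖ ≤ ξ) (y2 : ‖Y2‖ ≤ ξ) (y3 : ‖Y3‖ ≤ ξ) (y4 : ‖Y4‖ ≤ ξ) :
    |T ((1 + z1) * Y1 * ((1 + z2) * Y2) * ((1 + z3) * Y3) * ((1 + z4) * Y4)) -
      (T (Y1 * Y2 * Y3 * Y4) + (T (z1 * Y1 * Y2 * Y3 * Y4) + T (Y1 * z2 * Y2 * Y3 * Y4) +
        T (Y1 * Y2 * z3 * Y3 * Y4) + T (Y1 * Y2 * Y3 * z4 * Y4)) +
      (T (z1 * Y1 * z2 * Y2 * Y3 * Y4) + T (z1 * Y1 * Y2 * z3 * Y3 * Y4) +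
        T (z1 * Y1 * Y2 * Y3 * z4 * Y4) + T (Y1 * z2 * Y2 * z3 * Y3 * Y4) +
        T (Y1 * z2 * Y2 * Y3 * z4 * Y4) + T (Y1 * Y2 * z3 * Y3 * z4 * Y4)))| ≤
      N * (ξ ^ 4 * (4 + F0)) * f ^ 3 := by
  have e : (1 + z1) * Y1 * ((1 + z2) * Y2) * ((1 + z3) * Y3) * ((1 + z4) * Y4) =
      (Y1 * Y2 * Y3 * Y4) + ((z1 * Y1 * Y2 * Y3 * Y4) + (Y1 * z2 * Y2 * Y3 * Y4) +
        (Y1 * Y2 * z3 * Y3 * Y4) + (Y1 * Y2 * Y3 * z4 * Y4)) +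
      ((z1 * Y1 * z2 * Y2 * Y3 * Y4) + (z1 * Y1 * Y2 * z3 * Y3 * Y4) +
        (z1 * Y1 * Y2 * Y3 * z4 * Y4) + (Y1 * z2 * Y2 * z3 * Y3 * Y4) +
        (Y1 * z2 * Y2 * Y3 * z4 * Y4) + (Y1 * Y2 * z3 * Y3 * z4 * Y4)) +
      (z1 * Y1 * z2 * Y2 * z3 * Y3 * Y4 + z1 * Y1 * z2 * Y2 * Y3 * z4 * Y4 +
        z1 * Y1 * Y2 * z3 * Y3 * z4 * Y4 + Y1 * z2 * Y2 * z3 * Y3 * z4 * Y4 +
        z1 * Y1 * z2 * Y2 * z3 * Y3 * z4 * Y4) := by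
    noncomm_ring
  rw [e]
  simp only [T_add]
  have r1 := T_b (mb (mb (mb (mb (mb (mb h1 y1) h2) y2) h3) y3) y4)
  have r2 := T_b (mb (mb (mb (mb (mb (mb h1 y1) h2) y2) y3) h4) y4)
  have r3 := T_b (mb (mb (mb (mb (mb (mb h1 y1) y2) h3) y3) h4) y4)
  have r4 := T_b (mb (mb (mb (mb (mb (mb y1 h2) y2) h3) y3) h4) y4)
  have r5 := T_b (mb (mb (mb (mb (mb (mb (mb h1 y1) h2) y2) h3) y3) h4) y4)
  have hξ0 : 0 ≤ ξ := (norm_nonneg _).trans y1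
  have hN : (0 : ℝ) ≤ N := Nat.cast_nonneg N
  have r5' : (N : ℝ) * (f * ξ * f * ξ * f * ξ * f * ξ) ≤ N * (ξ ^ 4 * F0) * f ^ 3 := by
    have : (N : ℝ) * (ξ ^ 4 * f) * f ^ 3 ≤ N * (ξ ^ 4 * F0) * f ^ 3 := by gcongr
    linarith
  rw [abs_le] at r1 r2 r3 r4 r5 ⊢
  constructor <;> nlinarith [r1.1, r1.2, r2.1, r2.2, r3.1, r3.2, r4.1, r4.2, r5.1, r5.2, r5']

lemma G {X z1 z2 z3 z4 : Mt N} {ξ f F0 : ℝ} (hξ : ∀ n ≤ 2, ‖X ^ n‖ ≤ ξ) (hf : 0 ≤ f) (hF : f ≤ F0)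
    (h1 : ‖z1‖ ≤ f) (h2 : ‖z2‖ ≤ f) (h3 : ‖z3‖ ≤ f) (h4 : ‖z4‖ ≤ f)
    {n1 n2 n3 n4 : ℕ} (i1 : n1 ≤ 2) (i2 : n2 ≤ 2) (i3 : n3 ≤ 2) (i4 : n4 ≤ 2) :
    |T ((1 + z1) * X ^ n1 * ((1 + z2) * X ^ n2) * ((1 + z3) * X ^ n3) * ((1 + z4) * X ^ n4)) -
      (T (X ^ (n1 + n2 + n3 + n4)) + (T (z1 * X ^ (n1 + n2 + n3 + n4)) +
        T (z2 * X ^ (n1 + n2 + n3 + n4)) + T (z3 * X ^ (n1 + n2 + n3 + n4)) +
        T (z4 * X ^ (n1 + n2 + n3 + n4))) +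
      (Z X z1 z2 n1 (n2 + n3 + n4) + Z X z1 z3 (n1 + n2) (n3 + n4) + Z X z1 z4 (n1 + n2 + n3) n4 +
        Z X z2 z3 n2 (n3 + n4 + n1) + Z X z2 z4 (n2 + n3) (n4 + n1) +
        Z X z3 z4 n3 (n4 + n1 + n2)))| ≤
      N * (ξ ^ 4 * (4 + F0)) * f ^ 3 := by
  have h := G0 hf hF h1 h2 h3 h4 (hξ _ i1) (hξ _ i2) (hξ _ i3) (hξ _ i4)
  have e0 : X ^ n1 * X ^ n2 * X ^ n3 * X ^ n4 = X ^ (n1 + n2 + n3 + n4) := by
    simp only [pow_add]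
  have e1 : z1 * X ^ n1 * X ^ n2 * X ^ n3 * X ^ n4 = z1 * X ^ (n1 + n2 + n3 + n4) := by
    simp only [pow_add, mul_assoc]
  have e2 : T (X ^ n1 * z2 * X ^ n2 * X ^ n3 * X ^ n4) = T (z2 * X ^ (n1 + n2 + n3 + n4)) := by
    rw [show X ^ n1 * z2 * X ^ n2 * X ^ n3 * X ^ n4 = X ^ n1 * (z2 * (X ^ n2 * X ^ n3 * X ^ n4)) by
      simp only [mul_assoc], T_comm, mul_assoc, ← pow_add, ← pow_add, ← pow_add]
    congr 3
    ring
  have e3 : T (X ^ n1 * X ^ n2 * z3 * X ^ n3 * X ^ n4) = T (z3 * X ^ (n1 + n2 + n3 + n4)) := by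
    rw [show X ^ n1 * X ^ n2 * z3 * X ^ n3 * X ^ n4 = (X ^ n1 * X ^ n2) * (z3 * (X ^ n3 * X ^ n4)) by
      simp only [mul_assoc], T_comm, mul_assoc, ← pow_add, ← pow_add, ← pow_add]
    congr 3
    ring
  have e4 : T (X ^ n1 * X ^ n2 * X ^ n3 * z4 * X ^ n4) = T (z4 * X ^ (n1 + n2 + n3 + n4)) := by
    rw [show X ^ n1 * X ^ n2 * X ^ n3 * z4 * X ^ n4 = (X ^ n1 * X ^ n2 * X ^ n3) * (z4 * X ^ n4) by
      simp only [mul_assoc], T_comm, mul_assoc, ← pow_add, ← pow_add, ← pow_add]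
    congr 3
    ring
  have f12 : T (z1 * X ^ n1 * z2 * X ^ n2 * X ^ n3 * X ^ n4) = Z X z1 z2 n1 (n2 + n3 + n4) := by
    unfold Z
    simp only [pow_add, mul_assoc]
  have f13 : T (z1 * X ^ n1 * X ^ n2 * z3 * X ^ n3 * X ^ n4) = Z X z1 z3 (n1 + n2) (n3 + n4) := by
    unfold Z
    simp only [pow_add, mul_assoc]
  have f14 : T (z1 * X ^ n1 * X ^ n2 * X ^ n3 * z4 * X ^ n4) = Z X z1 z4 (n1 + n2 + n3) n4 := by
    unfold Z
    simp only [pow_add, mul_assoc]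
  have f23 : T (X ^ n1 * z2 * X ^ n2 * z3 * X ^ n3 * X ^ n4) = Z X z2 z3 n2 (n3 + n4 + n1) := by
    unfold Z
    rw [show X ^ n1 * z2 * X ^ n2 * z3 * X ^ n3 * X ^ n4 = X ^ n1 * (z2 * X ^ n2 * z3 * X ^ n3 * X ^ n4)
      by simp only [mul_assoc], T_comm]
    simp only [pow_add, mul_assoc]
  have f24 : T (X ^ n1 * z2 * X ^ n2 * X ^ n3 * z4 * X ^ n4) = Z X z2 z4 (n2 + n3) (n4 + n1) := by
    unfold Z
    rw [show X ^ n1 * z2 * X ^ n2 * X ^ n3 * z4 * X ^ n4 = X ^ n1 * (z2 * X ^ n2 * X ^ n3 * z4 * X ^ n4)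
      by simp only [mul_assoc], T_comm]
    simp only [pow_add, mul_assoc]
  have f34 : T (X ^ n1 * X ^ n2 * z3 * X ^ n3 * z4 * X ^ n4) = Z X z3 z4 n3 (n4 + n1 + n2) := by
    unfold Z
    rw [show X ^ n1 * X ^ n2 * z3 * X ^ n3 * z4 * X ^ n4 = (X ^ n1 * X ^ n2) * (z3 * X ^ n3 * z4 * X ^ n4)
      by simp only [mul_assoc], T_comm]
    simp only [pow_add, mul_assoc]
  rw [e0, e1, e2, e3, e4, f12, f13, f14, f23, f24, f34] at h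
  exact h

/-! ### approximations -/

/-- `z ≈ v` and `zᴴ ≈ -v` -/
structure Ap (f : ℝ) (z v : Mt N) : Prop where
  nz : ‖z‖ ≤ f
  nv : ‖v‖ ≤ f
  d : ‖z - v‖ ≤ f ^ 2
  s : ‖zᴴ + v‖ ≤ f ^ 2

lemma Ap.ns {f : ℝ} {z v : Mt N} (h : Ap f z v) : ‖zᴴ‖ ≤ f := by
  rw [frobenius_norm_conjTranspose]
  exact h.nz

lemma Z_ap {X : Mt N} {ξ : ℝ} (hξ : ∀ n ≤ 2, ‖X ^ n‖ ≤ ξ) {f : ℝ} {z v z' v' : Mt N}
    (h : Ap f z v) (h' : Ap f z' v') {m n : ℕ} (hm : m ≤ 2) (hn : n ≤ 2) :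
    |Z X z z' m n - Z X v v' m n| ≤ 2 * (N * ξ ^ 2) * f ^ 3 := by
  have e : Z X z z' m n - Z X v v' m n = Z X (z - v) z' m n + Z X v (z' - v') m n := by
    rw [Z_sub_left, Z_sub_right]
    ring
  have r1 := Z_le hξ h.d h'.nz hm hn
  have r2 := Z_le hξ h.nv h'.d hm hn
  rw [e]
  rw [abs_le] at r1 r2 ⊢
  constructor <;> nlinarith [r1.1, r1.2, r2.1, r2.2]

lemma Z_ap' {X : Mt N} {ξ : ℝ} (hξ : ∀ n ≤ 2, ‖X ^ n‖ ≤ ξ) {f : ℝ} {z v z' v' : Mt N}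
    (h : Ap f z v) (h' : Ap f z' v') {m n : ℕ} (hm : m ≤ 2) (hn : n ≤ 2) :
    |Z X zᴴ z'ᴴ m n - Z X v v' m n| ≤ 2 * (N * ξ ^ 2) * f ^ 3 := by
  have e : Z X zᴴ z'ᴴ m n - Z X v v' m n = Z X (zᴴ + v) z'ᴴ m n - Z X v (z'ᴴ + v') m n := by
    rw [Z_add_left, Z_add_right]
    ring
  have r1 := Z_le hξ h.s h'.ns hm hn
  have r2 := Z_le hξ h.nv h'.s hm hn
  rw [e]
  rw [abs_le] at r1 r2 ⊢
  constructor <;> nlinarith [r1.1, r1.2, r2.1, r2.2]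

/-- choice of the sign -/
def pk (K : ℝ) (m : ℕ) : ℝ := if m = 0 then K else -K
/-- choice of the form -/
def pm (U M : ℝ) (m : ℕ) : ℝ := if m = 1 then M else U

lemma pair1 {X : Mt N} (hX : Xᴴ = -X) {ξ : ℝ} (hξ : ∀ n ≤ 2, ‖X ^ n‖ ≤ ξ) {f : ℝ}
    {z v z' v' : Mt N} (h : Ap f z v) (h' : Ap f z' v') {m n : ℕ} (hmn : m + n = 1) :
    |Z X z z' m n - pk (Z X v v' 0 1) m| ≤ 2 * (N * ξ ^ 2) * f ^ 3 := by
  rcases Nat.eq_zero_or_pos m with h0 | h0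
  · have hn : n = 1 := by omega
    subst h0 hn
    exact Z_ap hξ h h' (by norm_num) (by norm_num)
  · have hm : m = 1 := by omega
    have hn : n = 0 := by omega
    subst hm hn
    have e : pk (Z X v v' 0 1) 1 = -Z X v v' 0 1 := by simp [pk]
    rw [e, Z_star10 hX]
    have := Z_ap' hξ h h' (m := 0) (n := 1) (by norm_num) (by norm_num)
    rw [show -Z X zᴴ z'ᴴ 0 1 - -Z X v v' 0 1 = -(Z X zᴴ z'ᴴ 0 1 - Z X v v' 0 1) by ring, abs_neg]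
    exact this

lemma pair2 {X : Mt N} (hX : Xᴴ = -X) {ξ : ℝ} (hξ : ∀ n ≤ 2, ‖X ^ n‖ ≤ ξ) {f : ℝ}
    {z v z' v' : Mt N} (h : Ap f z v) (h' : Ap f z' v') {m n : ℕ} (hmn : m + n = 2) :
    |Z X z z' m n - pm (Z X v v' 0 2) (Z X v v' 1 1) m| ≤ 2 * (N * ξ ^ 2) * f ^ 3 := by
  have hm : m = 0 ∨ m = 1 ∨ m = 2 := by omega
  rcases hm with h0 | h0 | h0
  · have hn : n = 2 := by omega
    subst h0 hn
    exact Z_ap hξ h h' (by norm_num) (by norm_num)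
  · have hn : n = 1 := by omega
    subst h0 hn
    exact Z_ap hξ h h' (by norm_num) (by norm_num)
  · have hn : n = 0 := by omega
    subst h0 hn
    have e : pm (Z X v v' 0 2) (Z X v v' 1 1) 2 = Z X v v' 0 2 := by simp [pm]
    rw [e, Z_star20 hX]
    exact Z_ap' hξ h h' (by norm_num) (by norm_num)

lemma symm {X : Mt N} (hX : Xᴴ = -X) {ξ : ℝ} (hξ : ∀ n ≤ 2, ‖X ^ n‖ ≤ ξ) {f : ℝ}
    {u v : Mt N} (h : Ap f u u) (h' : Ap f v v) :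
    |Z X v u 0 2 - Z X u v 0 2| ≤ 2 * (N * ξ ^ 2) * f ^ 3 := by
  rw [Z_cyc X v u 0 2, Z_star20 hX]
  exact Z_ap' hξ h h' (by norm_num) (by norm_num)

lemma half {X : Mt N} (hX : Xᴴ = -X) {ξ : ℝ} (hξ : ∀ n ≤ 2, ‖X ^ n‖ ≤ ξ) {f : ℝ}
    {z v : Mt N} (h : Ap f z v) (hz : z + zᴴ = -(z * zᴴ)) :
    |T (z * X ^ 2) - 1 / 2 * Z X v v 0 2| ≤ 2 * (N * ξ ^ 2) * f ^ 3 := by
  have e1 : T (z * X ^ 2) = T (zᴴ * X ^ 2) := by
    rw [← T_star (z * X ^ 2), conjTranspose_mul, conjTranspose_pow, hX, neg_sq, T_comm]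
  have e2 : T (z * X ^ 2) + T (zᴴ * X ^ 2) = -Z X z zᴴ 0 2 := by
    rw [← T_add, ← add_mul, hz, neg_mul, T_neg]
    unfold Z
    rw [pow_zero, mul_one]
  have e3 : Z X z zᴴ 0 2 + Z X v v 0 2 = Z X (z - v) zᴴ 0 2 + Z X v (zᴴ + v) 0 2 := by
    rw [Z_sub_left, Z_add_right]
    ring
  have r1 := Z_le hξ h.d h.ns (m := 0) (n := 2) (by norm_num) (by norm_num)
  have r2 := Z_le hξ h.nv h.s (m := 0) (n := 2) (by norm_num) (by norm_num)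
  have e4 : T (z * X ^ 2) - 1 / 2 * Z X v v 0 2 =
      -(1 / 2) * (Z X (z - v) zᴴ 0 2 + Z X v (zᴴ + v) 0 2) := by
    linarith
  rw [e4]
  rw [abs_le] at r1 r2 ⊢
  constructor <;> nlinarith [r1.1, r1.2, r2.1, r2.2]

lemma gp_eq {X : Mt N} (hX : Xᴴ = -X) (u v : Mt N) :
    gp X u v = 2 * Z X uᴴ v 1 1 - Z X uᴴ v 2 0 - Z X uᴴ v 0 2 := by
  have e : (X * u - u * X)ᴴ * (X * v - v * X) = -(uᴴ * X ^ 2 * v) + uᴴ * X * v * X +
      X * (uᴴ * X * v) - X * (uᴴ * v * X) := by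
    rw [conjTranspose_sub, conjTranspose_mul, conjTranspose_mul, hX]
    noncomm_ring
  have h : gp X u v = T ((X * u - u * X)ᴴ * (X * v - v * X)) := rfl
  rw [h, e, T_sub, T_add, T_add, T_neg, T_comm X, T_comm X]
  unfold Z
  simp only [pow_zero, pow_one, mul_one]
  rw [show uᴴ * v * X * X = uᴴ * v * X ^ 2 by rw [pow_two, mul_assoc]]
  ring

lemma hp_eq {X : Mt N} (hX : Xᴴ = -X) (u v : Mt N) :
    hp X u v = -(2 * Z X uᴴ v 1 1) - Z X uᴴ v 2 0 - Z X uᴴ v 0 2 := by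
  have e : (X * u + u * X)ᴴ * (X * v + v * X) = -(uᴴ * X ^ 2 * v) - uᴴ * X * v * X -
      X * (uᴴ * X * v) - X * (uᴴ * v * X) := by
    rw [conjTranspose_add, conjTranspose_mul, conjTranspose_mul, hX]
    noncomm_ring
  have h : hp X u v = T ((X * u + u * X)ᴴ * (X * v + v * X)) := rfl
  rw [h, e, T_sub, T_sub, T_sub, T_neg, T_comm X, T_comm X]
  unfold Z
  simp only [pow_zero, pow_one, mul_one]
  rw [show uᴴ * v * X * X = uᴴ * v * X ^ 2 by rw [pow_two, mul_assoc]]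
  ring

lemma gp_ap {X : Mt N} (hX : Xᴴ = -X) {ξ : ℝ} (hξ : ∀ n ≤ 2, ‖X ^ n‖ ≤ ξ) {f : ℝ}
    {u v : Mt N} (h : Ap f u u) (h' : Ap f v v) :
    |gp X u v - (2 * Z X u v 0 2 - 2 * Z X u v 1 1)| ≤ 4 * (N * ξ ^ 2) * f ^ 3 := by
  have e : gp X u v - (2 * Z X u v 0 2 - 2 * Z X u v 1 1) =
      2 * Z X (uᴴ + u) v 1 1 - Z X (uᴴ + u) v 0 2 - Z X u (vᴴ + v) 0 2 := by
    rw [gp_eq hX, Z_star20 hX, conjTranspose_conjTranspose, Z_add_left, Z_add_left, Z_add_right]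
    ring
  have r1 := Z_le hξ h.s h'.nz (m := 1) (n := 1) (by norm_num) (by norm_num)
  have r2 := Z_le hξ h.s h'.nz (m := 0) (n := 2) (by norm_num) (by norm_num)
  have r3 := Z_le hξ h.nz h'.s (m := 0) (n := 2) (by norm_num) (by norm_num)
  rw [e]
  rw [abs_le] at r1 r2 r3 ⊢
  constructor <;> nlinarith [r1.1, r1.2, r2.1, r2.2, r3.1, r3.2]

lemma hp_ap {X : Mt N} (hX : Xᴴ = -X) {ξ : ℝ} (hξ : ∀ n ≤ 2, ‖X ^ n‖ ≤ ξ) {f : ℝ}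
    {u v : Mt N} (h : Ap f u u) (h' : Ap f v v) :
    |hp X u v - (2 * Z X u v 0 2 + 2 * Z X u v 1 1)| ≤ 4 * (N * ξ ^ 2) * f ^ 3 := by
  have e : hp X u v - (2 * Z X u v 0 2 + 2 * Z X u v 1 1) =
      -(2 * Z X (uᴴ + u) v 1 1) - Z X (uᴴ + u) v 0 2 - Z X u (vᴴ + v) 0 2 := by
    rw [hp_eq hX, Z_star20 hX, conjTranspose_conjTranspose, Z_add_left, Z_add_left, Z_add_right]
    ring
  have r1 := Z_le hξ h.s h'.nz (m := 1) (n := 1) (by norm_num) (by norm_num)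
  have r2 := Z_le hξ h.s h'.nz (m := 0) (n := 2) (by norm_num) (by norm_num)
  have r3 := Z_le hξ h.nz h'.s (m := 0) (n := 2) (by norm_num) (by norm_num)
  rw [e]
  rw [abs_le] at r1 r2 r3 ⊢
  constructor <;> nlinarith [r1.1, r1.2, r2.1, r2.2, r3.1, r3.2]

lemma step1 {X z1 z2 z3 z4 v1 v2 v3 v4 : Mt N} (hX : Xᴴ = -X) {ξ f F0 : ℝ}
    (hξ : ∀ n ≤ 2, ‖X ^ n‖ ≤ ξ) (hf : 0 ≤ f) (hF : f ≤ F0) (h1 : Ap f z1 v1) (h2 : Ap f z2 v2)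
    (h3 : Ap f z3 v3) (h4 : Ap f z4 v4) {n1 n2 n3 n4 : ℕ} (hn : n1 + n2 + n3 + n4 = 1) :
    |T ((1 + z1) * X ^ n1 * ((1 + z2) * X ^ n2) * ((1 + z3) * X ^ n3) * ((1 + z4) * X ^ n4)) -
      (T X + (T (z1 * X) + T (z2 * X) + T (z3 * X) + T (z4 * X)) +
      (pk (Z X v1 v2 0 1) n1 + pk (Z X v1 v3 0 1) (n1 + n2) + pk (Z X v1 v4 0 1) (n1 + n2 + n3) +
        pk (Z X v2 v3 0 1) n2 + pk (Z X v2 v4 0 1) (n2 + n3) + pk (Z X v3 v4 0 1) n3))| ≤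
      (N * (ξ ^ 4 * (4 + F0)) + 20 * (N * ξ ^ 2)) * f ^ 3 := by
  have h := G hξ hf hF h1.nz h2.nz h3.nz h4.nz (n1 := n1) (n2 := n2) (n3 := n3) (n4 := n4)
    (by omega) (by omega) (by omega) (by omega)
  rw [hn, pow_one] at h
  have p12 := pair1 hX hξ h1 h2 (m := n1) (n := n2 + n3 + n4) (by omega)
  have p13 := pair1 hX hξ h1 h3 (m := n1 + n2) (n := n3 + n4) (by omega)
  have p14 := pair1 hX hξ h1 h4 (m := n1 + n2 + n3) (n := n4) (by omega)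
  have p23 := pair1 hX hξ h2 h3 (m := n2) (n := n3 + n4 + n1) (by omega)
  have p24 := pair1 hX hξ h2 h4 (m := n2 + n3) (n := n4 + n1) (by omega)
  have p34 := pair1 hX hξ h3 h4 (m := n3) (n := n4 + n1 + n2) (by omega)
  have hE : 0 ≤ (N * ξ ^ 2) * f ^ 3 := by positivity
  rw [abs_le] at h p12 p13 p14 p23 p24 p34 ⊢
  constructor <;> linarith [h.1, h.2, p12.1, p12.2, p13.1, p13.2, p14.1, p14.2, p23.1, p23.2,
    p24.1, p24.2, p34.1, p34.2]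

lemma step2 {X z1 z2 z3 z4 v1 v2 v3 v4 : Mt N} (hX : Xᴴ = -X) {ξ f F0 : ℝ}
    (hξ : ∀ n ≤ 2, ‖X ^ n‖ ≤ ξ) (hf : 0 ≤ f) (hF : f ≤ F0) (h1 : Ap f z1 v1) (h2 : Ap f z2 v2)
    (h3 : Ap f z3 v3) (h4 : Ap f z4 v4) (k1 : z1 + z1ᴴ = -(z1 * z1ᴴ)) (k2 : z2 + z2ᴴ = -(z2 * z2ᴴ))
    (k3 : z3 + z3ᴴ = -(z3 * z3ᴴ)) (k4 : z4 + z4ᴴ = -(z4 * z4ᴴ))
    {n1 n2 n3 n4 : ℕ} (hn : n1 + n2 + n3 + n4 = 2) :
    |T ((1 + z1) * X ^ n1 * ((1 + z2) * X ^ n2) * ((1 + z3) * X ^ n3) * ((1 + z4) * X ^ n4)) -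
      (T (X ^ 2) + (1 / 2 * Z X v1 v1 0 2 + 1 / 2 * Z X v2 v2 0 2 + 1 / 2 * Z X v3 v3 0 2 +
        1 / 2 * Z X v4 v4 0 2) +
      (pm (Z X v1 v2 0 2) (Z X v1 v2 1 1) n1 + pm (Z X v1 v3 0 2) (Z X v1 v3 1 1) (n1 + n2) +
        pm (Z X v1 v4 0 2) (Z X v1 v4 1 1) (n1 + n2 + n3) +
        pm (Z X v2 v3 0 2) (Z X v2 v3 1 1) n2 + pm (Z X v2 v4 0 2) (Z X v2 v4 1 1) (n2 + n3) +
        pm (Z X v3 v4 0 2) (Z X v3 v4 1 1) n3))| ≤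
      (N * (ξ ^ 4 * (4 + F0)) + 20 * (N * ξ ^ 2)) * f ^ 3 := by
  have h := G hξ hf hF h1.nz h2.nz h3.nz h4.nz (n1 := n1) (n2 := n2) (n3 := n3) (n4 := n4)
    (by omega) (by omega) (by omega) (by omega)
  rw [hn] at h
  have p12 := pair2 hX hξ h1 h2 (m := n1) (n := n2 + n3 + n4) (by omega)
  have p13 := pair2 hX hξ h1 h3 (m := n1 + n2) (n := n3 + n4) (by omega)
  have p14 := pair2 hX hξ h1 h4 (m := n1 + n2 + n3) (n := n4) (by omega)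
  have p23 := pair2 hX hξ h2 h3 (m := n2) (n := n3 + n4 + n1) (by omega)
  have p24 := pair2 hX hξ h2 h4 (m := n2 + n3) (n := n4 + n1) (by omega)
  have p34 := pair2 hX hξ h3 h4 (m := n3) (n := n4 + n1 + n2) (by omega)
  have q1 := half hX hξ h1 k1
  have q2 := half hX hξ h2 k2
  have q3 := half hX hξ h3 k3
  have q4 := half hX hξ h4 k4
  rw [abs_le] at h p12 p13 p14 p23 p24 p34 q1 q2 q3 q4 ⊢
  constructor <;> linarith [h.1, h.2, p12.1, p12.2, p13.1, p13.2, p14.1, p14.2, p23.1, p23.2,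
    p24.1, p24.2, p34.1, p34.2, q1.1, q1.2, q2.1, q2.2, q3.1, q3.2, q4.1, q4.2]

/-! ### the four factors -/

/-- linear combinations of four functions -/
def L4 (t1 t2 t3 t4 : ℝ) (f1 f2 f3 f4 : ℝ → ℝ) (θ : ℝ) : ℝ :=
  t1 * f1 θ + t2 * f2 θ + t3 * f3 θ + t4 * f4 θ

lemma L4_der {t1 t2 t3 t4 : ℝ} {f1 f2 f3 f4 : ℝ → ℝ} {g1 g2 g3 g4 : ℝ → ℝ} {θ : ℝ}
    (h1 : HasDerivAt f1 (g1 θ) θ) (h2 : HasDerivAt f2 (g2 θ) θ) (h3 : HasDerivAt f3 (g3 θ) θ)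
    (h4 : HasDerivAt f4 (g4 θ) θ) :
    HasDerivAt (L4 t1 t2 t3 t4 f1 f2 f3 f4) (L4 t1 t2 t3 t4 g1 g2 g3 g4 θ) θ :=
  (((h1.const_mul t1).add (h2.const_mul t2)).add (h3.const_mul t3)).add (h4.const_mul t4)

lemma L4_cont {t1 t2 t3 t4 : ℝ} {f1 f2 f3 f4 : ℝ → ℝ} (h1 : Continuous f1) (h2 : Continuous f2)
    (h3 : Continuous f3) (h4 : Continuous f4) : Continuous (L4 t1 t2 t3 t4 f1 f2 f3 f4) := by
  unfold L4
  fun_prop

lemma abs4 {t1 t2 t3 t4 y e1 e2 e3 e4 K : ℝ} (i1 : |t1| ≤ y) (i2 : |t2| ≤ y) (i3 : |t3| ≤ y)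
    (i4 : |t4| ≤ y) (h1 : |e1| ≤ K) (h2 : |e2| ≤ K) (h3 : |e3| ≤ K) (h4 : |e4| ≤ K) :
    |t1 * e1 + t2 * e2 + t3 * e3 + t4 * e4| ≤ 4 * (y * K) := by
  have hy : 0 ≤ y := (abs_nonneg _).trans i1
  have m : ∀ t e : ℝ, |t| ≤ y → |e| ≤ K → |t * e| ≤ y * K := by
    intro t e ht he
    rw [abs_mul]
    exact mul_le_mul ht he (abs_nonneg _) hy
  have r1 := m _ _ i1 h1
  have r2 := m _ _ i2 h2
  have r3 := m _ _ i3 h3
  have r4 := m _ _ i4 h4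
  rw [abs_le] at r1 r2 r3 r4 ⊢
  constructor <;> linarith [r1.1, r1.2, r2.1, r2.2, r3.1, r3.2, r4.1, r4.2]

/-- the frequencies -/
abbrev ta (x : ℝ) : ℝ := (x + 1) / 2
/-- the frequencies -/
abbrev tb (x : ℝ) : ℝ := -(x / 2)

/-- the functions -/
def q (X A B C D : Mt N) (x : ℝ) (n1 n2 n3 n4 : ℕ) : ℝ → ℝ :=
  QQ X A B C D (ta x) (ta x) (tb x) (tb x) n1 n2 n3 n4

lemma q_der (X A B C D : Mt N) (x : ℝ) (n1 n2 n3 n4 : ℕ) (θ : ℝ) :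
    HasDerivAt (q X A B C D x n1 n2 n3 n4)
      (L4 (ta x) (ta x) (tb x) (tb x) (q X A B C D x (n1 + 1) n2 n3 n4)
        (q X A B C D x n1 (n2 + 1) n3 n4) (q X A B C D x n1 n2 (n3 + 1) n4)
        (q X A B C D x n1 n2 n3 (n4 + 1)) θ) θ :=
  QQ_der X A B C D (ta x) (ta x) (tb x) (tb x) n1 n2 n3 n4 θ

lemma q_cont (X A B C D : Mt N) (x : ℝ) (n1 n2 n3 n4 : ℕ) : Continuous (q X A B C D x n1 n2 n3 n4) :=
  continuous_iff_continuousAt.2 fun θ => (q_der X A B C D x n1 n2 n3 n4 θ).continuousAt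

/-- the first derivative -/
def q1 (X A B C D : Mt N) (x : ℝ) (n1 n2 n3 n4 : ℕ) : ℝ → ℝ :=
  L4 (ta x) (ta x) (tb x) (tb x) (q X A B C D x (n1 + 1) n2 n3 n4)
    (q X A B C D x n1 (n2 + 1) n3 n4) (q X A B C D x n1 n2 (n3 + 1) n4)
    (q X A B C D x n1 n2 n3 (n4 + 1))

/-- the second derivative -/
def q2 (X A B C D : Mt N) (x : ℝ) : ℝ → ℝ :=
  L4 (ta x) (ta x) (tb x) (tb x) (q1 X A B C D x 1 0 0 0) (q1 X A B C D x 0 1 0 0)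
    (q1 X A B C D x 0 0 1 0) (q1 X A B C D x 0 0 0 1)

lemma q1_der (X A B C D : Mt N) (x θ : ℝ) :
    HasDerivAt (q1 X A B C D x 0 0 0 0) (q2 X A B C D x θ) θ := by
  unfold q1 q2
  exact L4_der (q_der X A B C D x 1 0 0 0 θ) (q_der X A B C D x 0 1 0 0 θ)
    (q_der X A B C D x 0 0 1 0 θ) (q_der X A B C D x 0 0 0 1 θ)

lemma q1_cont (X A B C D : Mt N) (x : ℝ) (n1 n2 n3 n4 : ℕ) :
    Continuous (q1 X A B C D x n1 n2 n3 n4) :=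
  L4_cont (q_cont _ _ _ _ _ _ _ _ _ _) (q_cont _ _ _ _ _ _ _ _ _ _)
    (q_cont _ _ _ _ _ _ _ _ _ _) (q_cont _ _ _ _ _ _ _ _ _ _)

lemma q2_cont (X A B C D : Mt N) (x : ℝ) : Continuous (q2 X A B C D x) :=
  L4_cont (q1_cont _ _ _ _ _ _ _ _ _ _) (q1_cont _ _ _ _ _ _ _ _ _ _)
    (q1_cont _ _ _ _ _ _ _ _ _ _) (q1_cont _ _ _ _ _ _ _ _ _ _)

lemma q_zero (X z1 z2 z3 z4 : Mt N) (x : ℝ) (n1 n2 n3 n4 : ℕ) :
    q X (1 + z1) (1 + z2) (1 + z3) (1 + z4) x n1 n2 n3 n4 0 =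
      T ((1 + z1) * X ^ n1 * ((1 + z2) * X ^ n2) * ((1 + z3) * X ^ n3) * ((1 + z4) * X ^ n4)) := by
  unfold q QQ gg
  simp only [ee_zero, mul_one]

lemma energy {X : Mt N} (hX : Xᴴ = -X) (a b c d : Mt N) (x θ : ℝ) :
    pe a (bg X θ ((x + 1) / 2) * b * bg X θ ((x + 1) / 2)) c (bg X θ (x / 2) * d * bg X θ (x / 2)) =
      T (1 : Mt N) - q X a b cᴴ dᴴ x 0 0 0 0 θ := by
  have e1 : bg X θ ((x + 1) / 2) = ee X (ta x) θ := rfl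
  have e2 : (bg X θ (x / 2))ᴴ = ee X (tb x) θ := ee_star hX (x / 2) θ
  unfold pe q QQ gg
  rw [trace_sub, Complex.sub_re]
  unfold T
  rw [conjTranspose_mul, conjTranspose_mul, e1, e2]
  simp only [pow_zero, mul_one, mul_assoc]

/-- unitary matrices near `1` -/
lemma uni_rel (a : UU N) : ((a : Mt N) - 1) + ((a : Mt N) - 1)ᴴ =
      -(((a : Mt N) - 1) * ((a : Mt N) - 1)ᴴ) ∧
    ((a : Mt N) - 1)ᴴ + ((a : Mt N) - 1)ᴴᴴ = -(((a : Mt N) - 1)ᴴ * ((a : Mt N) - 1)ᴴᴴ) := by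
  have h1 : (a : Mt N) * (a : Mt N)ᴴ = 1 := by
    have := mem_unitaryGroup_iff.1 a.2
    rwa [star_eq_conjTranspose] at this
  have h2 : (a : Mt N)ᴴ * (a : Mt N) = 1 := by
    have := mem_unitaryGroup_iff'.1 a.2
    rwa [star_eq_conjTranspose] at this
  rw [conjTranspose_conjTranspose, conjTranspose_sub, conjTranspose_one]
  constructor
  · rw [sub_mul, mul_sub, h1]
    simp only [one_mul, mul_one]
    abel
  · rw [sub_mul, mul_sub, h2]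
    simp only [one_mul, mul_one]
    abel

lemma ap_self {u : Mt N} {f : ℝ} (hu : ‖u‖ ≤ f) (h : u + uᴴ = -(u * uᴴ)) : Ap f u u := by
  refine ⟨hu, hu, ?_, ?_⟩
  · rw [sub_self, norm_zero]
    positivity
  · rw [add_comm, h, norm_neg]
    calc ‖u * uᴴ‖ ≤ f * f := mb hu (by rw [frobenius_norm_conjTranspose]; exact hu)
      _ = f ^ 2 := by ring

lemma ap_star {u : Mt N} {f : ℝ} (hu : ‖u‖ ≤ f) (h : u + uᴴ = -(u * uᴴ)) : Ap f uᴴ (-u) := by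
  refine ⟨by rw [frobenius_norm_conjTranspose]; exact hu, by rw [norm_neg]; exact hu, ?_, ?_⟩
  · rw [sub_neg_eq_add]
    exact (ap_self hu h).s
  · rw [conjTranspose_conjTranspose, add_neg_cancel, norm_zero]
    positivity

lemma ap_sum {p r : Mt N} {f g : ℝ} (hf : 0 ≤ f) (hg : 0 ≤ g) (h1 : Ap f p p) (h2 : Ap g r r) :
    Ap (f + g) (p + r) (p + r) ∧ Ap (f + g) (p - r) (p - r) := by
  have hfg : f ^ 2 + g ^ 2 ≤ (f + g) ^ 2 := by nlinarith [mul_nonneg hf hg]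
  constructor
  · refine ⟨(norm_add_le _ _).trans (add_le_add h1.nz h2.nz),
      (norm_add_le _ _).trans (add_le_add h1.nz h2.nz), ?_, ?_⟩
    · rw [sub_self, norm_zero]
      positivity
    · rw [conjTranspose_add, show pᴴ + rᴴ + (p + r) = (pᴴ + p) + (rᴴ + r) by abel]
      exact ((norm_add_le _ _).trans (add_le_add h1.s h2.s)).trans hfg
  · refine ⟨(norm_sub_le _ _).trans (add_le_add h1.nz h2.nz),
      (norm_sub_le _ _).trans (add_le_add h1.nz h2.nz), ?_, ?_⟩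
    · rw [sub_self, norm_zero]
      positivity
    · rw [conjTranspose_sub, show pᴴ - rᴴ + (p - r) = (pᴴ + p) - (rᴴ + r) by abel]
      exact ((norm_sub_le _ _).trans (add_le_add h1.s h2.s)).trans hfg

lemma ex_e {A B K : ℝ} (h : |A - B| ≤ K) : ∃ e, A = B + e ∧ |e| ≤ K := ⟨A - B, by ring, h⟩

lemma mulb {t y g K : ℝ} (ht : 0 ≤ t) (hty : t ≤ y) (hg : |g| ≤ K) : |t * g| ≤ y * K := by
  rw [abs_mul, abs_of_nonneg ht]
  exact mul_le_mul hty hg (abs_nonneg _) (ht.trans hty)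

lemma kp_eq (X u v : Mt N) : kp X u v = Z X u v 0 1 := by
  unfold Z
  change T (X * u * v) = _
  rw [mul_assoc, T_comm, pow_zero, pow_one, mul_one]

set_option maxHeartbeats 1000000 in
/-- **AG-P12.** -/
theorem tp12 : S_P12 := by
  intro N X hX
  obtain ⟨ξ, hξdef⟩ : ∃ ξ : ℝ, ξ = ‖X ^ 0‖ + ‖X ^ 1‖ + ‖X ^ 2‖ := ⟨_, rfl⟩
  have hn0 := norm_nonneg (X ^ 0)
  have hn1 := norm_nonneg (X ^ 1)
  have hn2 := norm_nonneg (X ^ 2)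
  have hξ : ∀ n ≤ 2, ‖X ^ n‖ ≤ ξ := by
    intro n hn
    rcases (by omega : n = 0 ∨ n = 1 ∨ n = 2) with h | h | h <;> subst h <;> linarith
  have hξ0 : 0 ≤ ξ := by linarith
  have hN : (0:ℝ) ≤ N := Nat.cast_nonneg N
  obtain ⟨F0, hF0⟩ : ∃ F0 : ℝ, F0 = 4 * (N + ξ) := ⟨_, rfl⟩
  have hF00 : 0 ≤ F0 := by rw [hF0]; positivity
  obtain ⟨K0, hK0⟩ : ∃ K0 : ℝ, K0 = N * ((N * ξ * N) * (N * ξ * N) * (N * ξ * N) * (N * ξ * N)) :=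
    ⟨_, rfl⟩
  obtain ⟨K1, hK1⟩ : ∃ K1 : ℝ, K1 = N * (ξ ^ 4 * (4 + F0)) + 20 * (N * ξ ^ 2) := ⟨_, rfl⟩
  obtain ⟨K2, hK2⟩ : ∃ K2 : ℝ, K2 = N * ξ ^ 2 := ⟨_, rfl⟩
  have hK00 : 0 ≤ K0 := by rw [hK0]; positivity
  have hK10 : 0 ≤ K1 := by rw [hK1]; positivity
  have hK20 : 0 ≤ K2 := by rw [hK2]; positivity
  refine ⟨16 * K0 + 16 * K1 + 100 * K2, fun a b c d x hx => ?_⟩
  have ht1 : |ta x| ≤ 1 + x := by
    unfold ta
    rw [abs_of_nonneg (by linarith)]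
    linarith
  have ht2 : |tb x| ≤ 1 + x := by
    unfold tb
    rw [abs_neg, abs_of_nonneg (by linarith)]
    linarith
  have hx1 : 1 ≤ 1 + x := by linarith
  have hx2 : 1 + x ≤ (1 + x) ^ 2 := by nlinarith
  have hx3 : 1 ≤ (1 + x) ^ 2 := by linarith
  have z1 : (x + 1) ^ 2 / 4 ≤ (1 + x) ^ 2 := by nlinarith
  have z2 : x ^ 2 / 4 ≤ (1 + x) ^ 2 := by nlinarith
  have z3 : (2 * x + 1) ^ 2 / 4 ≤ (1 + x) ^ 2 := by nlinarith
  have hcn : ‖(c : Mt N)ᴴ‖ ≤ N := by rw [frobenius_norm_conjTranspose]; exact uni_le c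
  have hdn : ‖(d : Mt N)ᴴ‖ ≤ N := by rw [frobenius_norm_conjTranspose]; exact uni_le d
  have hq : ∀ n1 n2 n3 n4 : ℕ, n1 ≤ 2 → n2 ≤ 2 → n3 ≤ 2 → n4 ≤ 2 → ∀ θ : ℝ,
      |q X a b (c : Mt N)ᴴ (d : Mt N)ᴴ x n1 n2 n3 n4 θ| ≤ K0 := by
    intro n1 n2 n3 n4 h1 h2 h3 h4 θ
    rw [hK0]
    exact QQ_le hX hξ (uni_le a) (uni_le b) hcn hdn _ _ _ _ h1 h2 h3 h4 θ
  have hq1 : ∀ n1 n2 n3 n4 : ℕ, n1 ≤ 1 → n2 ≤ 1 → n3 ≤ 1 → n4 ≤ 1 → ∀ θ : ℝ,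
      |q1 X a b (c : Mt N)ᴴ (d : Mt N)ᴴ x n1 n2 n3 n4 θ| ≤ 4 * ((1 + x) * K0) := by
    intro n1 n2 n3 n4 h1 h2 h3 h4 θ
    exact abs4 ht1 ht1 ht2 ht2 (hq _ _ _ _ (by omega) (by omega) (by omega) (by omega) θ)
      (hq _ _ _ _ (by omega) (by omega) (by omega) (by omega) θ)
      (hq _ _ _ _ (by omega) (by omega) (by omega) (by omega) θ)
      (hq _ _ _ _ (by omega) (by omega) (by omega) (by omega) θ)
  refine ⟨fun θ => -q1 X a b (c : Mt N)ᴴ (d : Mt N)ᴴ x 0 0 0 0 θ,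
    fun θ => -q2 X a b (c : Mt N)ᴴ (d : Mt N)ᴴ x θ, (q1_cont _ _ _ _ _ _ _ _ _ _).neg,
    (q2_cont _ _ _ _ _ _).neg, fun θ => ⟨?_, (q1_der _ _ _ _ _ _ _).neg, ?_, ?_⟩, ?_, ?_⟩
  · have h : (fun θ => pe (a : Mt N) (bg X θ ((x + 1) / 2) * b * bg X θ ((x + 1) / 2)) c
        (bg X θ (x / 2) * d * bg X θ (x / 2))) =
        fun θ => T (1 : Mt N) - q X a b (c : Mt N)ᴴ (d : Mt N)ᴴ x 0 0 0 0 θ :=
      funext fun θ => energy hX _ _ _ _ _ _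
    rw [h]
    exact (q_der _ _ _ _ _ _ _ _ _ _ _).const_sub _
  · rw [abs_neg]
    refine (hq1 0 0 0 0 (by omega) (by omega) (by omega) (by omega) θ).trans ?_
    have e1 : (1 + x) * K0 ≤ (1 + x) ^ 2 * K0 := mul_le_mul_of_nonneg_right hx2 hK00
    have e2 : 0 ≤ (1 + x) ^ 2 * K0 := by positivity
    have e3 : 0 ≤ (1 + x) ^ 2 * K1 := by positivity
    have e4 : 0 ≤ (1 + x) ^ 2 * K2 := by positivity
    linarith
  · rw [abs_neg]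
    have h : |q2 X a b (c : Mt N)ᴴ (d : Mt N)ᴴ x θ| ≤ 4 * ((1 + x) * (4 * ((1 + x) * K0))) :=
      abs4 ht1 ht1 ht2 ht2 (hq1 1 0 0 0 (by omega) (by omega) (by omega) (by omega) θ)
        (hq1 0 1 0 0 (by omega) (by omega) (by omega) (by omega) θ)
        (hq1 0 0 1 0 (by omega) (by omega) (by omega) (by omega) θ)
        (hq1 0 0 0 1 (by omega) (by omega) (by omega) (by omega) θ)
    refine h.trans ?_
    have e3 : 0 ≤ (1 + x) ^ 2 * K1 := by positivity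
    have e4 : 0 ≤ (1 + x) ^ 2 * K2 := by positivity
    linarith
  all_goals
    obtain ⟨A, hA⟩ : ∃ A : Mt N, A = (a : Mt N) - 1 := ⟨_, rfl⟩
    obtain ⟨B, hB⟩ : ∃ B : Mt N, B = (b : Mt N) - 1 := ⟨_, rfl⟩
    obtain ⟨C, hC⟩ : ∃ C : Mt N, C = (c : Mt N) - 1 := ⟨_, rfl⟩
    obtain ⟨D, hD⟩ : ∃ D : Mt N, D = (d : Mt N) - 1 := ⟨_, rfl⟩
    have ha : (a : Mt N) = 1 + A := by rw [hA]; abel
    have hb : (b : Mt N) = 1 + B := by rw [hB]; abel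
    have hc : (c : Mt N)ᴴ = 1 + Cᴴ := by rw [hC, conjTranspose_sub, conjTranspose_one]; abel
    have hd : (d : Mt N)ᴴ = 1 + Dᴴ := by rw [hD, conjTranspose_sub, conjTranspose_one]; abel
    have rA := uni_rel a
    have rB := uni_rel b
    have rC := uni_rel c
    have rD := uni_rel d
    rw [← hA] at rA
    rw [← hB] at rB
    rw [← hC] at rC
    rw [← hD] at rD
    have bA : ‖A‖ ≤ N + ξ := by
      rw [hA]
      refine (norm_sub_le _ _).trans (add_le_add (uni_le a) ?_)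
      have := hξ 0 (by norm_num)
      rwa [pow_zero] at this
    have bB : ‖B‖ ≤ N + ξ := by
      rw [hB]
      refine (norm_sub_le _ _).trans (add_le_add (uni_le b) ?_)
      have := hξ 0 (by norm_num)
      rwa [pow_zero] at this
    have bC : ‖C‖ ≤ N + ξ := by
      rw [hC]
      refine (norm_sub_le _ _).trans (add_le_add (uni_le c) ?_)
      have := hξ 0 (by norm_num)
      rwa [pow_zero] at this
    have bD : ‖D‖ ≤ N + ξ := by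
      rw [hD]
      refine (norm_sub_le _ _).trans (add_le_add (uni_le d) ?_)
      have := hξ 0 (by norm_num)
      rwa [pow_zero] at this
    beta_reduce
    rw [← hA, ← hB, ← hC, ← hD, ha, hb, hc, hd]
    obtain ⟨f, hf⟩ : ∃ f : ℝ, f = ‖A‖ + ‖B‖ + ‖C‖ + ‖D‖ := ⟨_, rfl⟩
    rw [← hf]
    have nA := norm_nonneg A
    have nB := norm_nonneg B
    have nC := norm_nonneg C
    have nD := norm_nonneg D
    have hf0 : 0 ≤ f := by linarith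
    have hF : f ≤ F0 := by linarith
    have apA : Ap f A A := ap_self (by linarith) rA.1
    have apB : Ap f B B := ap_self (by linarith) rB.1
    have apC : Ap f C C := ap_self (by linarith) rC.1
    have apD : Ap f D D := ap_self (by linarith) rD.1
    have apC' : Ap f Cᴴ (-C) := ap_star (by linarith) rC.1
    have apD' : Ap f Dᴴ (-D) := ap_star (by linarith) rD.1
  · have tX : T X = 0 := by
      have := T_star X
      rw [hX, T_neg] at this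
      linarith
    have tC : ∀ u : Mt N, T (uᴴ * X) = -T (u * X) := by
      intro u
      rw [← T_star (uᴴ * X), conjTranspose_mul, conjTranspose_conjTranspose, hX, neg_mul, T_neg,
        T_comm]
    have tS : (trace (X * (A + B - C - D))).re = T (A * X) + T (B * X) - T (C * X) - T (D * X) := by
      change T (X * (A + B - C - D)) = _
      rw [T_comm]
      simp only [add_mul, sub_mul, T_add, T_sub]
    have st := fun (n1 n2 n3 n4 : ℕ) (hn : n1 + n2 + n3 + n4 = 1) =>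
      ex_e (step1 hX hξ hf0 hF apA apB apC' apD' hn)
    obtain ⟨e1, h1, g1⟩ := st 1 0 0 0 rfl
    obtain ⟨e2, h2, g2⟩ := st 0 1 0 0 rfl
    obtain ⟨e3, h3, g3⟩ := st 0 0 1 0 rfl
    obtain ⟨e4, h4, g4⟩ := st 0 0 0 1 rfl
    rw [← q_zero X A B Cᴴ Dᴴ x] at h1 h2 h3 h4
    norm_num [pk, Z_neg_left, Z_neg_right, tX, tC] at h1 h2 h3 h4
    unfold q1 L4 k12
    rw [h1, h2, h3, h4, tS]
    simp only [kp_eq]
    have hb4 := abs4 ht1 ht1 ht2 ht2 g1 g2 g3 g4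
    rw [← hK1] at hb4
    have hf3 : 0 ≤ f ^ 3 := by positivity
    have hfin : 4 * ((1 + x) * (K1 * f ^ 3)) ≤
        (16 * K0 + 16 * K1 + 100 * K2) * (1 + x) ^ 2 * f ^ 3 := by
      have e1 : (1 + x) * (K1 * f ^ 3) ≤ (1 + x) ^ 2 * (K1 * f ^ 3) :=
        mul_le_mul_of_nonneg_right hx2 (by positivity)
      have e2 : 0 ≤ (1 + x) ^ 2 * (K1 * f ^ 3) := by positivity
      have e3 : 0 ≤ (1 + x) ^ 2 * (K0 * f ^ 3) := by positivity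
      have e4 : 0 ≤ (1 + x) ^ 2 * (K2 * f ^ 3) := by positivity
      linarith
    refine le_trans (le_of_eq ?_) (hb4.trans hfin)
    rw [← abs_neg]
    congr 1
    unfold ta tb
    ring
  · have ipX : ip X X = -T (X ^ 2) := by
      unfold ip
      rw [hX]
      change T (-X * X) = _
      rw [neg_mul, T_neg, pow_two]
    have st := fun (n1 n2 n3 n4 : ℕ) (hn : n1 + n2 + n3 + n4 = 2) =>
      ex_e (step2 hX hξ hf0 hF apA apB apC' apD' rA.1 rB.1 rC.2 rD.2 hn)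
    obtain ⟨e2000, h2000, g2000⟩ := st 2 0 0 0 rfl
    obtain ⟨e0200, h0200, g0200⟩ := st 0 2 0 0 rfl
    obtain ⟨e0020, h0020, g0020⟩ := st 0 0 2 0 rfl
    obtain ⟨e0002, h0002, g0002⟩ := st 0 0 0 2 rfl
    obtain ⟨e1100, h1100, g1100⟩ := st 1 1 0 0 rfl
    obtain ⟨e1010, h1010, g1010⟩ := st 1 0 1 0 rfl
    obtain ⟨e1001, h1001, g1001⟩ := st 1 0 0 1 rfl
    obtain ⟨e0110, h0110, g0110⟩ := st 0 1 1 0 rfl
    obtain ⟨e0101, h0101, g0101⟩ := st 0 1 0 1 rfl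
    obtain ⟨e0011, h0011, g0011⟩ := st 0 0 1 1 rfl
    clear st
    rw [← q_zero X A B Cᴴ Dᴴ x] at h2000 h0200 h0020 h0002 h1100 h1010 h1001 h0110 h0101 h0011
    norm_num [pm, Z_neg_left, Z_neg_right] at h2000 h0200 h0020 h0002 h1100 h1010 h1001 h0110 h0101 h0011
    have w1 := (ap_sum nA nB (ap_self (f := ‖A‖) le_rfl rA.1) (ap_self (f := ‖B‖) le_rfl rB.1)).1
    have w2 := (ap_sum (add_nonneg nA nB) nC w1 (ap_self (f := ‖C‖) le_rfl rC.1)).2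
    have w3 := (ap_sum (add_nonneg (add_nonneg nA nB) nC) nD w2
      (ap_self (f := ‖D‖) le_rfl rD.1)).2
    have apw : Ap f (A + B - C - D) (A + B - C - D) := by
      rw [hf]
      exact w3
    clear w1 w2 w3
    obtain ⟨eh, hh, gh⟩ := ex_e (hp_ap hX hξ apw apw)
    simp only [Z_add_left, Z_sub_left, Z_add_right, Z_sub_right] at hh
    obtain ⟨sAB, hAB, kAB⟩ := ex_e (symm hX hξ apA apB)
    obtain ⟨sAC, hAC, kAC⟩ := ex_e (symm hX hξ apA apC)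
    obtain ⟨sAD, hAD, kAD⟩ := ex_e (symm hX hξ apA apD)
    obtain ⟨sBC, hBC, kBC⟩ := ex_e (symm hX hξ apB apC)
    obtain ⟨sBD, hBD, kBD⟩ := ex_e (symm hX hξ apB apD)
    obtain ⟨sCD, hCD, kCD⟩ := ex_e (symm hX hξ apC apD)
    rw [hAB, hAC, hAD, hBC, hBD, hCD, Z_cyc X B A 1 1, Z_cyc X C A 1 1, Z_cyc X D A 1 1,
      Z_cyc X C B 1 1, Z_cyc X D B 1 1, Z_cyc X D C 1 1] at hh
    obtain ⟨gAA, iAA, jAA⟩ := ex_e (gp_ap hX hξ apA apA)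
    obtain ⟨gBB, iBB, jBB⟩ := ex_e (gp_ap hX hξ apB apB)
    obtain ⟨gCC, iCC, jCC⟩ := ex_e (gp_ap hX hξ apC apC)
    obtain ⟨gDD, iDD, jDD⟩ := ex_e (gp_ap hX hξ apD apD)
    obtain ⟨gCD, iCD, jCD⟩ := ex_e (gp_ap hX hξ apC apD)
    obtain ⟨gAB, iAB, jAB⟩ := ex_e (gp_ap hX hξ apA apB)
    obtain ⟨gBC, iBC, jBC⟩ := ex_e (gp_ap hX hξ apB apC)
    obtain ⟨gAD, iAD, jAD⟩ := ex_e (gp_ap hX hξ apA apD)
    obtain ⟨gAC, iAC, jAC⟩ := ex_e (gp_ap hX hξ apA apC)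
    rw [← hK1] at g2000 g0200 g0020 g0002 g1100 g1010 g1001 g0110 g0101 g0011
    rw [← hK2] at gh kAB kAC kAD kBC kBD kCD jAA jBB jCC jDD jCD jAB jBC jAD jAC
    have b1 := abs4 ht1 ht1 ht2 ht2 g2000 g1100 g1010 g1001
    have b2 := abs4 ht1 ht1 ht2 ht2 g1100 g0200 g0110 g0101
    have b3 := abs4 ht1 ht1 ht2 ht2 g1010 g0110 g0020 g0011
    have b4 := abs4 ht1 ht1 ht2 ht2 g1001 g0101 g0011 g0002
    have b5 := abs4 ht1 ht1 ht2 ht2 b1 b2 b3 b4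
    have xx : 0 ≤ x ^ 2 := sq_nonneg x
    have c1 := mulb (t := (x + 1) ^ 2 / 4) (y := (1 + x) ^ 2) (by positivity) z1 jCD
    have c2 := mulb (t := x ^ 2 / 4) (y := (1 + x) ^ 2) (by positivity) z2 jAB
    have c3 := mulb (t := x ^ 2 / 4) (y := (1 + x) ^ 2) (by positivity) z2 jBC
    have c4 := mulb (t := (x + 1) ^ 2 / 4) (y := (1 + x) ^ 2) (by positivity) z1 jAD
    have c5 := mulb (t := (2 * x + 1) ^ 2 / 4) (y := (1 + x) ^ 2) (by positivity) z3 jAC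
    have key : -q2 X (1 + A) (1 + B) (1 + Cᴴ) (1 + Dᴴ) x 0 - ip X X +
        1 / 8 * hp X (A + B - C - D) (A + B - C - D) - g12 X x A B C D =
      -(ta x * (ta x * e2000 + ta x * e1100 + tb x * e1010 + tb x * e1001) +
        ta x * (ta x * e1100 + ta x * e0200 + tb x * e0110 + tb x * e0101) +
        tb x * (ta x * e1010 + ta x * e0110 + tb x * e0020 + tb x * e0011) +
        tb x * (ta x * e1001 + ta x * e0101 + tb x * e0011 + tb x * e0002)) +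
      (1 / 8) * eh + 1 / 4 * (sAB - sAC - sAD - sBC - sBD + sCD) +
      (1 / 8) * (gAA + gBB + gCC + gDD) + (x + 1) ^ 2 / 4 * gCD + x ^ 2 / 4 * gAB -
      x ^ 2 / 4 * gBC - (x + 1) ^ 2 / 4 * gAD - (2 * x + 1) ^ 2 / 4 * gAC := by
      unfold q2 q1 L4 g12
      simp only [zero_add, Nat.reduceAdd, h2000, h0200, h0020, h0002, h1100, h1010, h1001, h0110,
        h0101, h0011, hh, ipX, iAA, iBB, iCC, iDD, iCD, iAB, iBC, iAD, iAC]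
      unfold ta tb
      ring
    rw [key]
    have hf3 : 0 ≤ f ^ 3 := by positivity
    have y0 : 0 ≤ (1 + x) ^ 2 * (K0 * f ^ 3) := by positivity
    have y1 : 0 ≤ (1 + x) ^ 2 * (K1 * f ^ 3) := by positivity
    have y2 : K2 * f ^ 3 ≤ (1 + x) ^ 2 * (K2 * f ^ 3) :=
      le_mul_of_one_le_left (by positivity) hx3
    have y3 : 0 ≤ K2 * f ^ 3 := by positivity
    rw [abs_le] at gh kAB kAC kAD kBC kBD kCD jAA jBB jCC jDD c1 c2 c3 c4 c5 b5 ⊢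
    constructor
    · linarith [gh.1, gh.2, kAB.1, kAC.2, kAD.2, kBC.2, kBD.2, kCD.1, jAA.1, jBB.1, jCC.1, jDD.1,
        c1.1, c2.1, c3.2, c4.2, c5.2, b5.2]
    · linarith [gh.1, gh.2, kAB.2, kAC.1, kAD.1, kBC.1, kBD.1, kCD.2, jAA.2, jBB.2, jCC.2, jDD.2,
        c1.2, c2.2, c3.1, c4.1, c5.1, b5.1]

end

end Pool.Agent.H600.AG
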